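import Pool.Agent.Helper58.DM.Goals
import Pool.Agent.Helper8.DH.F_RIC

/-!
Packet M_RHO of project DM: the coefficient of the Ricci form is the Ricci component.
-/

set_option autoImplicit false

namespace Pool.Agent.Helper3.DM

open Matrix Pool.Agent.Helper58.DH Pool.Agent.Helper58.DM

/-- The coefficient of the metric at a pair of blocks. -/
def XB (w : Fin 6 → ℝ) (A B : Fin 5) : ℝ := (cls A B).elim 0 w

/-- One summand of the Ricci form. -/
noncomputable def ff (w : Fin 6 → ℝ) (A B C : Fin 5) : ℝ :=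
  (XB w A C)⁻¹ * (XB w B C)⁻¹ * (XB w A B ^ 2 - XB w A C ^ 2 - XB w B C ^ 2)

/-- The six right sides. -/
noncomputable def rr (P Q M E : ℝ) (w : Fin 6 → ℝ) : Fin 6 → ℝ :=
  ![1 - (P + E) * cs (w 1) (w 2) (w 0) - (Q + E) * cs (w 1) (w 3) (w 0) - M * cs (w 4) (w 5) (w 0),
    1 - (P + E) * cs (w 0) (w 2) (w 1) - (Q + E) * cs (w 0) (w 3) (w 1) - M * cs (w 4) (w 5) (w 1),
    1 - 2 * Q * cs (w 0) (w 1) (w 2) - M * cs (w 4) (w 4) (w 2),
    1 - 2 * P * cs (w 0) (w 1) (w 3) - M * cs (w 5) (w 5) (w 3),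
    1 - (P + E) * cs (w 2) (w 4) (w 4) - Q * (cs (w 5) (w 1) (w 4) + cs (w 5) (w 0) (w 4)),
    1 - (Q + E) * cs (w 3) (w 5) (w 5) - P * (cs (w 4) (w 1) (w 5) + cs (w 4) (w 0) (w 5))]

theorem key (p q m η k : ℝ) (hk : 0 < k) (w : Fin 6 → ℝ) (hw : ∀ c, 0 < w c) (A B : Fin 5)
    (c : Fin 6) (h : cls A B = some c) :
    1 / 2 + 1 / (4 * k) * ((p * ff w A B 0 + p * ff w A B 1 + q * ff w A B 2 + q * ff w A B 3 +
      m * ff w A B 4) - η * (ff w A B (bar5 B) + ff w A B (bar5 A))) =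
      rr (p / k) (q / k) (m / k) (-η / k) w c / 2 := by
  have h0 := (hw 0).ne'
  have h1 := (hw 1).ne'
  have h2 := (hw 2).ne'
  have h3 := (hw 3).ne'
  have h4 := (hw 4).ne'
  have h5 := (hw 5).ne'
  have hk' := hk.ne'
  fin_cases A <;> fin_cases B <;>
    first
    | (exfalso; revert h; simp [cls]; done)
    | (obtain rfl : c = _ := (Option.some.inj h).symm
       simp [ff, XB, cls, bar5, rr, cs]
       field_simp
       ring)

theorem sum_blocks {I : Type} [Fintype I] [DecidableEq I] (F : Frame I) (p q m : ℕ)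
    (hS : Sizes F p q m) (φ : Fin 5 → ℝ) :
    ∑ b, φ (F.bl b) = p * φ 0 + p * φ 1 + q * φ 2 + q * φ 3 + m * φ 4 := by
  have h1 : ∑ b, φ (F.bl b) = ∑ B : Fin 5, ((Finset.univ.filter fun i ↦ F.bl i = B).card : ℝ) * φ B := by
    rw [← Finset.sum_fiberwise Finset.univ F.bl fun b ↦ φ (F.bl b)]
    refine Finset.sum_congr rfl fun B _ ↦ ?_
    rw [Finset.sum_congr rfl (g := fun _ ↦ φ B)]
    · rw [Finset.sum_const, nsmul_eq_mul]
    · intro i hi
      rw [(Finset.mem_filter.1 hi).2]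
  rw [h1, Fin.sum_univ_five]
  simp only [hS.1]
  simp

theorem kk_eq {I : Type} [Fintype I] [DecidableEq I] (F : Frame I) (p q m : ℕ)
    (hS : Sizes F p q m) : kk F = 2 * p + 2 * q + m + 2 * (-F.η) := by
  have h := sum_blocks F p q m hS fun _ ↦ 1
  simp only [Finset.sum_const, Finset.card_univ, nsmul_eq_mul, mul_one] at h
  unfold kk
  rw [h]
  ring

theorem m_rho : Pool.Agent.Helper58.DM.M_RHO := by
  intro I _ _ F p q m w hS hw i j c hc
  have hp : (0 : ℝ) < p := by exact_mod_cast hS.2.1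
  have hq : (0 : ℝ) < q := by exact_mod_cast hS.2.2.1
  have hm : (0 : ℝ) < m := by exact_mod_cast hS.2.2.2.1
  have hpe := hS.2.2.2.2.1
  have hqe := hS.2.2.2.2.2
  have hk : (0 : ℝ) < 2 * p + 2 * q + m + 2 * (-F.η) := by linarith
  have hkk := kk_eq F p q m hS
  have hR := Pool.Agent.Helper8.DH.f_ric (-F.η) p q m hp hq hm (by linarith) (by linarith) hk w hw
  have hrr : ∀ c, 2 * w c * ric (dF (-F.η) p q m) (AF (-F.η) p q m) w c =
      rr (p / (2 * p + 2 * q + m + 2 * (-F.η))) (q / (2 * p + 2 * q + m + 2 * (-F.η)))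
        (m / (2 * p + 2 * q + m + 2 * (-F.η))) (-F.η / (2 * p + 2 * q + m + 2 * (-F.η))) w c := by
    obtain ⟨r0, r1, r2, r3, r4, r5⟩ := hR
    intro c
    fin_cases c
    · exact r0
    · exact r1
    · exact r2
    · exact r3
    · exact r4
    · exact r5
  have h1 := key p q m F.η _ hk w hw (F.bl i) (F.bl j) c hc
  have h2 := hrr c
  have h3 : rho F w i j = 1 / 2 + 1 / (4 * (2 * p + 2 * q + m + 2 * (-F.η))) *
      ((p * ff w (F.bl i) (F.bl j) 0 + p * ff w (F.bl i) (F.bl j) 1 +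
        q * ff w (F.bl i) (F.bl j) 2 + q * ff w (F.bl i) (F.bl j) 3 +
        m * ff w (F.bl i) (F.bl j) 4) - F.η * (ff w (F.bl i) (F.bl j) (bar5 (F.bl j)) +
        ff w (F.bl i) (F.bl j) (bar5 (F.bl i)))) := by
    unfold rho
    rw [hkk, ← sum_blocks F p q m hS fun B ↦ ff w (F.bl i) (F.bl j) B, ← F.bl_bar, ← F.bl_bar]
    rfl
  rw [h3, h1, ← h2]
  ring

end Pool.Agent.Helper3.DM
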